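import Mathlib

/-!
# MP_1cbbe5_an: unbounded solutions of `x_{n+1} = (β x_n + x_{n-1}) / x_{n-2}`

For every `β ∈ (0,1)` there are unbounded solutions.  In logarithmic variables, and up to
exponentially small errors, eight steps of the recursion map `(a, b, c)` to
`(a - 2 log β, b, c - 2 log β)` as long as `a` and `c` are large and `b` is bounded.
-/

set_option autoImplicit false

namespace Pool.Agent.Results.MP_1cbbe5_an.Unbounded

/-- `x` is a solution; the index is shifted by two, so `x 0, x 1, x 2` are the initial values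
`x_{-2}, x_{-1}, x_0`.  All denominators (that is, all terms) are positive. -/
def IsSolution (β : ℝ) (x : ℕ → ℝ) : Prop :=
  (∀ n, 0 < x n) ∧ ∀ n, x (n + 3) = (β * x (n + 2) + x (n + 1)) / x n

/-- the dominant term of a sum of exponentials -/
lemma logsum {u v T e : ℝ} (h : v ≤ u - T) (he : Real.exp (-T) ≤ e) :
    u ≤ Real.log (Real.exp u + Real.exp v) ∧ Real.log (Real.exp u + Real.exp v) ≤ u + e := by
  have h1 : Real.exp u + Real.exp v = Real.exp u * (1 + Real.exp (v - u)) := by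
    rw [mul_add, mul_one, ← Real.exp_add]
    congr 2
    ring
  have h2 : 0 < Real.exp (v - u) := Real.exp_pos _
  rw [h1, Real.log_mul (Real.exp_pos _).ne' (by positivity), Real.log_exp]
  have h3 : 0 ≤ Real.log (1 + Real.exp (v - u)) := Real.log_nonneg (by linarith)
  have h4 : Real.log (1 + Real.exp (v - u)) ≤ Real.exp (v - u) := by
    have := Real.log_le_sub_one_of_pos (x := 1 + Real.exp (v - u)) (by positivity)
    linarith
  have h5 : Real.exp (v - u) ≤ Real.exp (-T) := Real.exp_le_exp.2 (by linarith)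
  constructor <;> linarith

lemma stepL {u v T e s t : ℝ} (r : s = Real.log (Real.exp u + Real.exp v) - t)
    (he : Real.exp (-T) ≤ e) (h : v ≤ u - T) : u - t ≤ s ∧ s ≤ u - t + e := by
  have := logsum h he
  constructor <;> linarith [this.1, this.2]

lemma stepR {u v T e s t : ℝ} (r : s = Real.log (Real.exp u + Real.exp v) - t)
    (he : Real.exp (-T) ≤ e) (h : u ≤ v - T) : v - t ≤ s ∧ s ≤ v - t + e :=
  stepL (by rw [r, add_comm]) he h

/-- eight steps -/
lemma eight {κ M e : ℝ} {y : ℕ → ℝ} (hκ : κ < 0)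
    (hy : ∀ n, y (n + 3) = Real.log (Real.exp (κ + y (n + 2)) + Real.exp (y (n + 1))) - y n)
    (n : ℕ) (h0 : M + 2 - κ ≤ y n) (h2 : M + 2 - κ ≤ y (n + 2))
    (h1 : |y (n + 1)| ≤ 1) (he : Real.exp (-M) ≤ e) (he1 : e ≤ 1 / 20) :
    y n - 2 * κ - 12 * e ≤ y (n + 8) ∧ y (n + 2) - 2 * κ - 12 * e ≤ y (n + 10) ∧
      |y (n + 9) - y (n + 1)| ≤ 12 * e := by
  have hb := abs_le.1 h1
  obtain ⟨hb1, hb2⟩ := hb
  have hep : 0 < e := lt_of_lt_of_le (Real.exp_pos _) he
  have r3 := hy n
  have r4 := hy (n + 1)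
  have r5 := hy (n + 2)
  have r6 := hy (n + 3)
  have r7 := hy (n + 4)
  have r8 := hy (n + 5)
  have r9 := hy (n + 6)
  have r10 := hy (n + 7)
  simp only [add_assoc] at r3 r4 r5 r6 r7 r8 r9 r10
  norm_num at r3 r4 r5 r6 r7 r8 r9 r10
  set s0 := y n
  set s1 := y (n + 1)
  set s2 := y (n + 2)
  set s3 := y (n + 3)
  set s4 := y (n + 4)
  set s5 := y (n + 5)
  set s6 := y (n + 6)
  set s7 := y (n + 7)
  set s8 := y (n + 8)
  set s9 := y (n + 9)
  set s10 := y (n + 10)
  -- odd steps: the first term dominates; even steps: the second term dominates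
  obtain ⟨a3, b3⟩ := stepL r3 he (by linarith)
  obtain ⟨a4, b4⟩ := stepR r4 he (by linarith)
  obtain ⟨a5, b5⟩ := stepL r5 he (by linarith)
  obtain ⟨a6, b6⟩ := stepR r6 he (by linarith)
  obtain ⟨a7, b7⟩ := stepL r7 he (by linarith)
  obtain ⟨a8, b8⟩ := stepR r8 he (by linarith)
  obtain ⟨a9, b9⟩ := stepL r9 he (by linarith)
  obtain ⟨a10, b10⟩ := stepR r10 he (by linarith)
  refine ⟨by linarith, by linarith, abs_le.2 ⟨by linarith, by linarith⟩⟩

/-- the logarithms of a solution -/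
lemma log_rec {β : ℝ} (hβ : 0 < β) {x : ℕ → ℝ} (hx : IsSolution β x) (n : ℕ) :
    Real.log (x (n + 3)) = Real.log (Real.exp (Real.log β + Real.log (x (n + 2))) +
      Real.exp (Real.log (x (n + 1)))) - Real.log (x n) := by
  have h0 := hx.1 n
  have h1 := hx.1 (n + 1)
  have h2 := hx.1 (n + 2)
  rw [Real.exp_add, Real.exp_log hβ, Real.exp_log h2, Real.exp_log h1, hx.2 n,
    Real.log_div (by positivity) h0.ne']

/-- the growth of the logarithms along multiples of eight -/
lemma growth {κ : ℝ} (hκ : κ < 0) : ∃ L : ℝ, ∀ y : ℕ → ℝ,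
    (∀ n, y (n + 3) = Real.log (Real.exp (κ + y (n + 2)) + Real.exp (y (n + 1))) - y n) →
    L ≤ y 0 → L ≤ y 2 → y 1 = 0 → ∀ k : ℕ, L - κ * k ≤ y (8 * k) := by
  -- errors `e k = c * q ^ k` with `q = exp κ`
  set q : ℝ := Real.exp κ with hq
  have hq0 : 0 < q := Real.exp_pos _
  have hq1 : q < 1 := by
    rw [hq, ← Real.exp_zero]
    exact Real.exp_lt_exp.2 hκ
  set c : ℝ := min (1 / 20) (min ((1 - q) / 12) (-κ / 12)) with hc
  have hc0 : 0 < c := by
    rw [hc]
    refine lt_min (by norm_num) (lt_min ?_ ?_)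
    · linarith
    · linarith
  have hc1 : c ≤ 1 / 20 := min_le_left _ _
  have hc2 : c ≤ (1 - q) / 12 := (min_le_right _ _).trans (min_le_left _ _)
  have hc3 : c ≤ -κ / 12 := (min_le_right _ _).trans (min_le_right _ _)
  set L : ℝ := -Real.log c + 2 - κ with hL
  refine ⟨L, fun y hy h0 h2 h1 => ?_⟩
  have key : ∀ k : ℕ, L - κ * k ≤ y (8 * k) ∧ L - κ * k ≤ y (8 * k + 2) ∧
      |y (8 * k + 1)| ≤ 12 * c * (1 - q ^ k) / (1 - q) := by
    intro k
    induction k with
    | zero =>
      refine ⟨by simpa using h0, by simpa using h2, ?_⟩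
      simp [h1]
    | succ k ih =>
      obtain ⟨i0, i2, i1⟩ := ih
      have hqk : 0 < q ^ k := pow_pos hq0 k
      have hqk1 : q ^ k ≤ 1 := pow_le_one₀ hq0.le hq1.le
      have hb1 : |y (8 * k + 1)| ≤ 1 := by
        refine i1.trans ?_
        rw [div_le_one (by linarith)]
        have : 12 * c * (1 - q ^ k) ≤ 12 * c * 1 :=
          mul_le_mul_of_nonneg_left (by linarith) (by positivity)
        linarith
      have he : Real.exp (-(-Real.log c - κ * k)) ≤ c * q ^ k := by
        rw [show -(-Real.log c - κ * k) = Real.log c + k * κ by ring, Real.exp_add,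
          Real.exp_log hc0, Real.exp_nat_mul]
      have h8 := eight hκ hy (8 * k) (M := -Real.log c - κ * k) (e := c * q ^ k)
        (by linarith) (by linarith) hb1 he (by nlinarith)
      obtain ⟨j0, j2, j1⟩ := h8
      have hce : 12 * (c * q ^ k) ≤ -κ := by nlinarith
      have e0 : 8 * (k + 1) = 8 * k + 8 := by ring
      rw [e0]
      refine ⟨?_, ?_, ?_⟩
      · push_cast
        linarith
      · push_cast
        have : 8 * k + 8 + 2 = 8 * k + 10 := by ring
        rw [this]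
        linarith
      · have e1 : 8 * k + 8 + 1 = 8 * k + 9 := by ring
        rw [e1]
        have t1 : |y (8 * k + 9)| ≤ |y (8 * k + 9) - y (8 * k + 1)| + |y (8 * k + 1)| := by
          have := abs_add_le (y (8 * k + 9) - y (8 * k + 1)) (y (8 * k + 1))
          simpa using this
        have t2 : 12 * c * (1 - q ^ (k + 1)) / (1 - q) =
            12 * c * (1 - q ^ k) / (1 - q) + 12 * (c * q ^ k) := by
          have : (1 - q) ≠ 0 := by linarith
          field_simp
          ring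
        rw [t2]
        linarith
  exact fun k => (key k).1

/-- a solution with given initial values -/
noncomputable def sol (β : ℝ) (p : ℝ × ℝ × ℝ) : ℕ → ℝ × ℝ × ℝ
  | 0 => p
  | n + 1 => ((sol β p n).2.1, (sol β p n).2.2,
      (β * (sol β p n).2.2 + (sol β p n).2.1) / (sol β p n).1)

lemma exists_solution {β a b c : ℝ} (hβ : 0 < β) (ha : 0 < a) (hb : 0 < b) (hc : 0 < c) :
    ∃ x : ℕ → ℝ, IsSolution β x ∧ x 0 = a ∧ x 1 = b ∧ x 2 = c := by
  have hpos : ∀ n, 0 < (sol β (a, b, c) n).1 ∧ 0 < (sol β (a, b, c) n).2.1 ∧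
      0 < (sol β (a, b, c) n).2.2 := by
    intro n
    induction n with
    | zero => exact ⟨ha, hb, hc⟩
    | succ n ih =>
      obtain ⟨h1, h2, h3⟩ := ih
      refine ⟨h2, h3, ?_⟩
      show 0 < (β * (sol β (a, b, c) n).2.2 + (sol β (a, b, c) n).2.1) / (sol β (a, b, c) n).1
      positivity
  refine ⟨fun n => (sol β (a, b, c) n).1, ⟨fun n => (hpos n).1, fun n => rfl⟩, rfl, rfl, rfl⟩

/-- **Unbounded solutions exist for every `β ∈ (0,1)`.**  More precisely there is `L > 0` such that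
every solution with `x_{-2} ≥ L`, `x_{-1} = 1`, `x_0 ≥ L` is unbounded, and such solutions exist. -/
theorem result : ∀ β : ℝ, 0 < β → β < 1 → ∃ L : ℝ, 0 < L ∧
    (∀ x : ℕ → ℝ, IsSolution β x → L ≤ x 0 → x 1 = 1 → L ≤ x 2 → ¬ BddAbove (Set.range x)) ∧
    (∃ x : ℕ → ℝ, IsSolution β x ∧ L ≤ x 0 ∧ x 1 = 1 ∧ L ≤ x 2) := by
  intro β h0 h1
  have hκ : Real.log β < 0 := Real.log_neg h0 h1
  obtain ⟨L, hL⟩ := growth hκ
  refine ⟨Real.exp L, Real.exp_pos _, ?_, ?_⟩
  · intro x hx hx0 hx1 hx2 hbdd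
    obtain ⟨B, hB⟩ := hbdd
    have key := hL (fun n => Real.log (x n)) (log_rec h0 hx)
      ((Real.le_log_iff_exp_le (hx.1 0)).2 hx0) ((Real.le_log_iff_exp_le (hx.1 2)).2 hx2)
      (by simp [hx1])
    obtain ⟨k, hk⟩ := exists_nat_gt ((Real.log (max B 1) - L) / (-Real.log β))
    rw [div_lt_iff₀ (by linarith)] at hk
    have h3 := key k
    have h4 : Real.log (x (8 * k)) ≤ Real.log (max B 1) :=
      Real.log_le_log (hx.1 _) ((hB ⟨_, rfl⟩).trans (le_max_left _ _))
    linarith
  · obtain ⟨x, hx, e0, e1, e2⟩ := exists_solution h0 (Real.exp_pos L) one_pos (Real.exp_pos L)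
    exact ⟨x, hx, e0.ge, e1, e2.ge⟩

end Pool.Agent.Results.MP_1cbbe5_an.Unbounded
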